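import Pool.Agent.Helper64.LN.GoalsC

set_option autoImplicit false

/-! Project LN (MP_2b9d24_gt, phase 2), packet PU2: isotopies moving a point along a path. -/

open Topology Filter Set Metric
open scoped unitInterval
open Pool.Agent.Helper64.LN

namespace Pool.Agent.Helper63.LN

section
set_option linter.unusedSectionVars false
variable {S : Type*} [TopologicalSpace S]

/-- The fibrewise map given by `μ` in the chart `J`. -/
noncomputable def fmap (μ : ℂ → ℂ → ℂ → ℂ) (J : OpenPartialHomeomorph ℂ S) (a b : I → ℂ)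
    (q : I × S) : I × S :=
  (q.1, open scoped Classical in
    if q.2 ∈ J.target then J (μ (a q.1) (b q.1) (J.symm q.2)) else q.2)

lemma fmap_in (μ : ℂ → ℂ → ℂ → ℂ) (J : OpenPartialHomeomorph ℂ S) (a b : I → ℂ)
    (t : I) (x : S) (hx : x ∈ J.target) :
    fmap μ J a b (t, x) = (t, J (μ (a t) (b t) (J.symm x))) := by
  simp [fmap, hx]

lemma fmap_out (μ : ℂ → ℂ → ℂ → ℂ) (J : OpenPartialHomeomorph ℂ S) (a b : I → ℂ)
    (t : I) (x : S) (hx : x ∉ J.target) : fmap μ J a b (t, x) = (t, x) := by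
  simp [fmap, hx]

lemma exists_bound (a : C(I, ℂ)) (ha : ∀ t, ‖a t‖ < 1) : ∃ R < 1, ∀ t, ‖a t‖ ≤ R := by
  obtain ⟨t, -, ht⟩ := isCompact_univ.exists_isMaxOn (univ_nonempty : (univ : Set I).Nonempty)
    (a.continuous.norm.continuousOn (s := univ))
  exact ⟨‖a t‖, ha t, fun s => ht (mem_univ s)⟩

variable [T2Space S] (μ : ℂ → ℂ → ℂ → ℂ)
  (h1 : ∀ R < 1, ∃ r < 1, ∀ a b : ℂ, ‖a‖ ≤ R → ‖b‖ ≤ R → ∀ z : ℂ, r ≤ ‖z‖ → μ a b z = z)
  (h4 : ∀ a b, ‖a‖ < 1 → ‖b‖ < 1 → ∀ z, μ b a (μ a b z) = z)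
  (h5 : ∀ a b z, ‖a‖ < 1 → ‖b‖ < 1 → ‖z‖ < 1 → ‖μ a b z‖ < 1)
  (h6 : ContinuousOn (fun q : ℂ × ℂ × ℂ => μ q.1 q.2.1 q.2.2) {q | ‖q.1‖ < 1 ∧ ‖q.2.1‖ < 1})
  (J : OpenPartialHomeomorph ℂ S) (hJ : J.source = ball (0 : ℂ) 1)

include h4 h5 hJ in
lemma fmap_fmap (a b : I → ℂ) (ha : ∀ t, ‖a t‖ < 1) (hb : ∀ t, ‖b t‖ < 1) (q : I × S) :
    fmap μ J b a (fmap μ J a b q) = q := by
  obtain ⟨t, x⟩ := q
  by_cases hx : x ∈ J.target
  · have hs : J.symm x ∈ J.source := J.map_target hx
    have hs' : ‖J.symm x‖ < 1 := by rw [hJ] at hs; simpa using hs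
    have hm : μ (a t) (b t) (J.symm x) ∈ J.source := by
      rw [hJ]; simpa using h5 _ _ _ (ha t) (hb t) hs'
    rw [fmap_in μ J a b t x hx, fmap_in μ J b a t _ (J.map_source hm), J.left_inv hm,
      h4 _ _ (ha t) (hb t), J.right_inv hx]
  · rw [fmap_out μ J a b t x hx, fmap_out μ J b a t x hx]

include h1 hJ in
lemma exists_supp (a b : C(I, ℂ)) (ha : ∀ t, ‖a t‖ < 1) (hb : ∀ t, ‖b t‖ < 1) :
    ∃ L : Set S, IsCompact L ∧ L ⊆ J.target ∧ ∀ t x, x ∉ L → fmap μ J a b (t, x) = (t, x) := by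
  obtain ⟨R₁, hR₁, hR₁'⟩ := exists_bound a ha
  obtain ⟨R₂, hR₂, hR₂'⟩ := exists_bound b hb
  obtain ⟨r, hr, hr'⟩ := h1 (max R₁ R₂) (max_lt hR₁ hR₂)
  have hsub : closedBall (0 : ℂ) r ⊆ J.source := by
    rw [hJ]; exact closedBall_subset_ball hr
  refine ⟨J '' closedBall 0 r, (isCompact_closedBall 0 r).image_of_continuousOn
    (J.continuousOn.mono hsub), ?_, ?_⟩
  · rintro _ ⟨z, hz, rfl⟩
    exact J.map_source (hsub hz)
  · intro t x hx
    by_cases hxt : x ∈ J.target
    · rw [fmap_in μ J a b t x hxt]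
      have : r ≤ ‖J.symm x‖ := by
        by_contra hlt
        exact hx ⟨J.symm x, by simpa using (not_le.1 hlt).le, J.right_inv hxt⟩
      rw [hr' _ _ ((hR₁' t).trans (le_max_left _ _)) ((hR₂' t).trans (le_max_right _ _)) _ this,
        J.right_inv hxt]
    · exact fmap_out μ J a b t x hxt

include h1 h6 h5 hJ in
lemma fmap_cont (a b : C(I, ℂ)) (ha : ∀ t, ‖a t‖ < 1) (hb : ∀ t, ‖b t‖ < 1) :
    Continuous (fmap μ J a b) := by
  obtain ⟨L, hL, hLt, hL'⟩ := exists_supp μ h1 J hJ a b ha hb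
  rw [continuous_iff_continuousAt]
  rintro ⟨t, x⟩
  by_cases hx : x ∈ J.target
  · have hopen : IsOpen ((univ : Set I) ×ˢ J.target) := isOpen_univ.prod J.open_target
    have hmem : (t, x) ∈ (univ : Set I) ×ˢ J.target := ⟨mem_univ _, hx⟩
    have hc : ContinuousOn (fun q : I × S => (q.1, J (μ (a q.1) (b q.1) (J.symm q.2))))
        ((univ : Set I) ×ˢ J.target) := by
      refine continuousOn_fst.prodMk ?_
      have hin : ContinuousOn (fun q : I × S => μ (a q.1) (b q.1) (J.symm q.2))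
          ((univ : Set I) ×ˢ J.target) := by
        refine h6.comp (f := fun q : I × S => (a q.1, b q.1, J.symm q.2)) ?_ ?_
        · refine ((a.continuous.comp continuous_fst).continuousOn).prodMk
            (((b.continuous.comp continuous_fst).continuousOn).prodMk ?_)
          exact J.symm.continuousOn.comp continuousOn_snd (fun q hq => hq.2)
        · intro q _
          exact ⟨ha q.1, hb q.1⟩
      refine J.continuousOn.comp hin ?_
      intro q hq
      have hs : J.symm q.2 ∈ J.source := J.map_target hq.2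
      have hs' : ‖J.symm q.2‖ < 1 := by rw [hJ] at hs; simpa using hs
      rw [hJ]; simpa using h5 _ _ _ (ha q.1) (hb q.1) hs'
    refine ((hc.continuousAt (hopen.mem_nhds hmem))).congr ?_
    filter_upwards [hopen.mem_nhds hmem] with q hq
    exact (fmap_in μ J a b q.1 q.2 hq.2).symm
  · have hxL : x ∉ L := fun h => hx (hLt h)
    have hopen : IsOpen ((univ : Set I) ×ˢ Lᶜ) := isOpen_univ.prod hL.isClosed.isOpen_compl
    have hmem : (t, x) ∈ (univ : Set I) ×ˢ Lᶜ := ⟨mem_univ _, hxL⟩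
    refine (continuousAt_id (x := ((t, x) : I × S))).congr ?_
    filter_upwards [hopen.mem_nhds hmem] with q hq
    exact (hL' q.1 q.2 hq.2).symm

end

/-- Moving a point along a path in a disc. -/
lemma one_disc (PU1 : GoalPU1) {S : Type*} [TopologicalSpace S] [T2Space S]
    (J : OpenPartialHomeomorph ℂ S) (hJ : J.source = ball (0 : ℂ) 1) (z : C(I, ℂ))
    (hz : ∀ t, ‖z t‖ < 1) : ∃ H : (I × S) ≃ₜ (I × S), (∀ q, (H q).1 = q.1) ∧
      (∀ t x, z t = z 0 → (H (t, x)).2 = x) ∧ (∀ t, (H (t, J (z 0))).2 = J (z t)) ∧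
      ∃ L : Set S, IsCompact L ∧ ∀ t x, x ∉ L → (H (t, x)).2 = x := by
  obtain ⟨μ, h1, h2, h3, h4, h5, h6⟩ := PU1
  let c : C(I, ℂ) := ContinuousMap.const I (z 0)
  have hc : ∀ t, ‖c t‖ < 1 := fun _ => hz 0
  let H : (I × S) ≃ₜ (I × S) :=
    { toFun := fmap μ J c z
      invFun := fmap μ J z c
      left_inv := fmap_fmap μ h4 h5 J hJ c z hc hz
      right_inv := fmap_fmap μ h4 h5 J hJ z c hz hc
      continuous_toFun := fmap_cont μ h1 h5 h6 J hJ c z hc hz
      continuous_invFun := fmap_cont μ h1 h5 h6 J hJ z c hz hc }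
  refine ⟨H, fun _ => rfl, ?_, ?_, ?_⟩
  · intro t x ht
    change (fmap μ J c z (t, x)).2 = x
    by_cases hx : x ∈ J.target
    · rw [fmap_in μ J c z t x hx]
      change J (μ (z 0) (z t) (J.symm x)) = x
      rw [ht, h3 _ _ (hz 0), J.right_inv hx]
    · rw [fmap_out μ J c z t x hx]
  · intro t
    have hs : z 0 ∈ J.source := by rw [hJ]; simpa using hz 0
    change (fmap μ J c z (t, J (z 0))).2 = J (z t)
    rw [fmap_in μ J c z t _ (J.map_source hs), J.left_inv hs]
    change J (μ (z 0) (z t) (z 0)) = J (z t)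
    rw [h2 _ _ (hz 0) (hz t)]
  · obtain ⟨L, hL, -, hL'⟩ := exists_supp μ h1 J hJ c z hc hz
    refine ⟨L, hL, fun t x hx => ?_⟩
    change (fmap μ J c z (t, x)).2 = x
    rw [hL' t x hx]

theorem goalPU2.{v} (PU1 : GoalPU1) : GoalPU2.{v} := by
  intro S _ _ hch η
  choose J hJs hJx using hch
  obtain ⟨T, hT0, hTm, ⟨n, hTn⟩, hTc⟩ :=
    exists_monotone_Icc_subset_open_cover_unitInterval
      (c := fun x : S => η ⁻¹' (J x).target)
      (fun x => (J x).open_target.preimage η.continuous)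
      (fun t _ => mem_iUnion.2 ⟨η t, hJx (η t)⟩)
  have key : ∀ n : ℕ, ∃ H : (I × S) ≃ₜ (I × S), (∀ q, (H q).1 = q.1) ∧
      (∀ x, (H (0, x)).2 = x) ∧ (∀ t, (H (t, η 0)).2 = η (min t (T n))) ∧
      ∃ L : Set S, IsCompact L ∧ ∀ t x, x ∉ L → (H (t, x)).2 = x := by
    intro n
    induction n with
    | zero =>
      refine ⟨Homeomorph.refl _, fun _ => rfl, fun _ => rfl, fun t => ?_, ∅, isCompact_empty,
        fun _ _ _ => rfl⟩
      rw [hT0]
      have : min t (0 : I) = 0 := min_eq_right t.2.1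
      rw [this]
      rfl
    | succ n ih =>
      obtain ⟨H, hH1, hH0, hHη, L, hL, hL'⟩ := ih
      obtain ⟨x₀, hx₀⟩ := hTc n
      have hle : T n ≤ T (n + 1) := hTm (Nat.le_succ n)
      -- the clamped path
      let cl : C(I, I) := ⟨fun t => max (T n) (min t (T (n + 1))), by fun_prop⟩
      have hcl : ∀ t, cl t ∈ Icc (T n) (T (n + 1)) := fun t =>
        ⟨le_max_left _ _, max_le hle (min_le_right _ _)⟩
      have hmem : ∀ t, η (cl t) ∈ (J x₀).target := fun t => hx₀ (hcl t)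
      have hzc : Continuous (fun t : I => (J x₀).symm (η (cl t))) := by
        rw [← continuousOn_univ]
        exact (J x₀).symm.continuousOn.comp ((η.continuous.comp cl.continuous).continuousOn)
          (fun t _ => hmem t)
      let z : C(I, ℂ) := ⟨fun t : I => (J x₀).symm (η (cl t)), hzc⟩
      have hz : ∀ t, ‖z t‖ < 1 := by
        intro t
        have := (J x₀).map_target (hmem t)
        rw [hJs] at this
        exact mem_ball_zero_iff.1 this
      have hJz : ∀ t, J x₀ (z t) = η (cl t) := fun t => (J x₀).right_inv (hmem t)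
      have hcl0 : cl 0 = T n := by
        change max (T n) (min 0 (T (n + 1))) = T n
        rw [min_eq_left (show (0 : I) ≤ T (n + 1) from (T (n + 1)).2.1)]
        exact max_eq_left (T n).2.1
      have hclle : ∀ t, t ≤ T n → cl t = T n := by
        intro t ht
        exact max_eq_left ((min_le_left _ _).trans ht)
      have hclge : ∀ t, T n ≤ t → cl t = min t (T (n + 1)) := by
        intro t ht
        exact max_eq_right (le_min ht hle)
      obtain ⟨H', h1, h2, h3, L₂, hL₂, hL₂'⟩ := one_disc PU1 (J x₀) (hJs x₀) z hz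
      have hfst : ∀ q : I × S, H q = (q.1, (H q).2) := fun q => Prod.ext (hH1 q) rfl
      refine ⟨H.trans H', fun q => ?_, fun x => ?_, fun t => ?_, L ∪ L₂, hL.union hL₂,
        fun t x hx => ?_⟩
      · change (H' (H q)).1 = q.1
        rw [h1, hH1]
      · change (H' (H (0, x))).2 = x
        rw [hfst, hH0]
        exact h2 0 x rfl
      · change (H' (H (t, η 0))).2 = _
        rw [hfst, hHη]
        change (H' (t, η (min t (T n)))).2 = _
        rcases le_total t (T n) with ht | ht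
        · rw [min_eq_left ht, min_eq_left (ht.trans hle)]
          apply h2
          change (J x₀).symm (η (cl t)) = (J x₀).symm (η (cl 0))
          rw [hclle t ht, hcl0]
        · rw [min_eq_right ht, ← hcl0, ← hJz, h3, hJz, hclge t ht]
      · change (H' (H (t, x))).2 = x
        rw [hfst, hL' t x (fun h => hx (Or.inl h))]
        exact hL₂' t x (fun h => hx (Or.inr h))
  obtain ⟨H, hH1, hH0, hHη, hL⟩ := key n
  refine ⟨H, hH1, hH0, fun t => ?_, hL⟩
  have : min t (1 : I) = t := min_eq_left t.2.2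
  rw [hHη, hTn n le_rfl, this]

end Pool.Agent.Helper63.LN
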