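import Pool.Agent.Helper64.LN.GoalsB
import Pool.Agent.Helper64.LN.GoalsC

set_option autoImplicit false

/-! Project LN (MP_2b9d24_gt, phase 2), packet T2: the lifts of the inner and the outer twist. -/

open Topology Filter Set Metric UpperHalfPlane
open scoped MatrixGroups unitInterval
open Pool.Agent.Helper64.LN

namespace Pool.Agent.Helper63.LN

section
variable {X : Type*} [TopologicalSpace X] {B : Set X} {u : ℍ → X}

lemma uni_mem (h : Uni B u) (z : ℍ) : u z ∈ Bᶜ := by
  rw [← h.range]; exact mem_range_self z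

lemma uni_pre (h : Uni B u) : u ⁻¹' Bᶜ = univ := eq_univ_of_forall fun z => uni_mem h z

/-- The covering map onto the complement of `B`. -/
def uc (h : Uni B u) (z : ℍ) : ((Bᶜ : Set X) : Type _) := ⟨u z, uni_mem h z⟩

lemma uc_cov (h : Uni B u) : IsCoveringMap (uc h) := by
  have h1 := h.cov.isCoveringMap_restrictPreimage
  let e : ℍ ≃ₜ (u ⁻¹' Bᶜ : Set ℍ) :=
    (Homeomorph.Set.univ ℍ).symm.trans (Homeomorph.setCongr (uni_pre h).symm)
  have h2 := h1.comp_homeomorph e
  exact h2

lemma lift_unique (h : Uni B u) {A : Type*} [TopologicalSpace A] [PreconnectedSpace A]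
    {g₁ g₂ : A → ℍ} (h₁ : Continuous g₁) (h₂ : Continuous g₂) (he : ∀ a, u (g₁ a) = u (g₂ a))
    (a : A) (ha : g₁ a = g₂ a) : ∀ b, g₁ b = g₂ b := by
  have := (uc_cov h).eq_of_comp_eq h₁ h₂ (funext fun a => Subtype.ext (he a)) a ha
  exact fun b => congrFun this b

end

theorem goalT2.{v} (L3 : GoalL3.{v}) : GoalT2.{v} := by
  intro X _ _ p P u C K γ ω hC Ti To H hH0 hH1 hHout hHin hHcore Fi Fo hFi hFo hiω hoω g hg
  have hU := hC.uni
  obtain ⟨-, -, l3⟩ := L3 X (insert p P) u hU
  obtain ⟨l3o, -⟩ := l3 To Fo hFo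
  have hg' : Fo * g * Fo⁻¹ ∈ deck u := l3o g hg
  -- the homotopy avoids `B`
  have hav : ∀ (t : I) (x : X), x ∉ insert p P → H (t, x) ∉ insert p P := by
    intro t x hx
    by_cases hxt : x ∈ C.target
    · have h1 := hHin t x hxt
      have h2 := hC.tgt (C.symm (H (t, x))) (C.map_target h1)
      rwa [C.right_inv h1] at h2
    · rw [hHout t x hxt]; exact hx
  have hucont : Continuous u := by
    have : Continuous (fun z => ((uc hU z : ((insert p P)ᶜ : Set X)) : X)) :=
      continuous_subtype_val.comp (uc_cov hU).continuous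
    exact this
  let HH : C(I × ℍ, ((insert p P)ᶜ : Set X)) :=
    ⟨fun q => ⟨H (unitInterval.symm q.1, u q.2), hav _ _ (uni_mem hU q.2)⟩, by
      refine Continuous.subtype_mk ?_ _
      exact H.continuous.comp
        ((unitInterval.continuous_symm.comp continuous_fst).prodMk (hucont.comp continuous_snd))⟩
  have hHH0 : ∀ z, HH (0, z) = uc hU ((⟨Fo, Fo.continuous⟩ : C(ℍ, ℍ)) z) := by
    intro z
    apply Subtype.ext
    change H (unitInterval.symm 0, u z) = u (Fo z)
    rw [unitInterval.symm_zero, hH1, hFo]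
  let G := (uc_cov hU).liftHomotopy HH ⟨Fo, Fo.continuous⟩ hHH0
  have hG : ∀ (t : I) (z : ℍ), u (G (t, z)) = H (unitInterval.symm t, u z) := by
    intro t z
    have := congrFun ((uc_cov hU).liftHomotopy_lifts HH ⟨Fo, Fo.continuous⟩ hHH0) (t, z)
    exact congrArg Subtype.val this
  have hG0 : ∀ z : ℍ, G (0, z) = Fo z := by
    intro z
    exact (uc_cov hU).liftHomotopy_zero HH ⟨Fo, Fo.continuous⟩ hHH0 z
  -- equivariance
  have hA : ∀ (t : I) (z : ℍ), G (t, g z) = (Fo * g * Fo⁻¹) (G (t, z)) := by
    intro t z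
    have := lift_unique hU (g₁ := fun q : I × ℍ => G (q.1, g q.2))
      (g₂ := fun q : I × ℍ => (Fo * g * Fo⁻¹) (G q))
      (G.continuous.comp (continuous_fst.prodMk (g.continuous.comp continuous_snd)))
      ((Fo * g * Fo⁻¹).continuous.comp G.continuous)
      (fun q => by
        rw [deck_apply hg', hG, deck_apply hg]
        exact (hG q.1 q.2).symm) (0, z)
      (by
        change G (0, g z) = (Fo * g * Fo⁻¹) (G (0, z))
        rw [hG0, hG0]
        change Fo (g z) = Fo (g (Fo.symm (Fo z)))
        rw [Fo.symm_apply_apply])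
    exact this (t, z)
  -- along the core
  have hB : ∀ s : ℝ, G (1, ω s) = γ (Fi (ω s)) := by
    intro s
    have h1 := lift_unique hU (g₁ := fun t : I => G (t, ω s))
      (g₂ := fun t : I => ω (s + t))
      (G.continuous.comp (continuous_id.prodMk continuous_const))
      (ω.continuous.comp (continuous_const.add continuous_subtype_val))
      (fun t => by
        rw [hG, hC.core, hHcore, hC.core]
        · congr 1
          rw [← Complex.exp_add]
          congr 1
          rw [unitInterval.coe_symm_eq]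
          push_cast
          ring
        · rw [show (2 * Real.pi * Complex.I * s : ℂ) = ((2 * Real.pi * s : ℝ) : ℂ) * Complex.I by
            push_cast; ring]
          exact Complex.norm_exp_ofReal_mul_I _) 0
      (by
        rw [hG0, hoω]
        simp)
    have h2 := h1 1
    change G (1, ω s) = ω (s + (1 : I)) at h2
    rw [h2, hiω, ← hC.per]
    simp
  have hD : ∀ z : ℍ, G (1, z) = γ (Fi z) := by
    apply lift_unique hU (g₁ := fun z : ℍ => G (1, z)) (g₂ := fun z => γ (Fi z))
      (G.continuous.comp (continuous_const.prodMk continuous_id))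
      (γ.continuous.comp Fi.continuous)
      (fun z => by
        rw [deck_apply hC.deck, hG, hFi, unitInterval.symm_one, hH0]) (ω 0) (hB 0)
  have hE : γ * Fi * g = (Fo * g * Fo⁻¹) * γ * Fi := by
    ext1 z
    have := hA 1 z
    rw [hD, hD] at this
    exact this
  have : (Fo * g * Fo⁻¹) = γ * Fi * g * Fi⁻¹ * γ⁻¹ := by
    rw [hE]; group
  rw [this]
  group

end Pool.Agent.Helper63.LN
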